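import Pool.Agent.helper76.FE.Spec

/-!
# Project FG (MP_bf63dc_nt, rows `fg:*`): THE CASES OF Q1 WITH A GIVEN FIXED POINT `c/(a - b)`

A case `(a, b, c)`, `a ≠ b`, is the map `T x = (b x + c)/a` with the fixed point `c/(a - b) = u/v` in lowest terms, `v ≥ 1`. The cases with the same fixed point commute; FR+ is the fixed point `1`, FEC is the powers of one case.

GOAL (THEOREM FGC, unconditional). For every `k` there is `C` such that for every `0 < ε ≤ 1` there is an absolute `K` such that for EVERY `u/v ≠ 0` and every `n ≥ 1` there is a set `E` of at most `C/ε^4` ratios with the property: of ANY `k` different positive integers `s_i` such that for all `i ≠ j` the ratio `r = rd s_i s_j = (a, b)`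
is not in `E` and belongs to a case with the fixed point `u/v` whose `n`-th iterate is the identity modulo all primes `p ≤ K` dividing `v` (`Cx`), more than `k/4` have pairwise `GoodX ε u v n r`: `Dens (1 - ε) (a^n) (b^n) (u (a^n - b^n)/v)`.

PROOF. As for FEC (Pool/Agent/helper76/FE): index set with the group generated by the slopes (IDQ, chosen before the slopes); the slopes `s_i^n` of every tuple are divided by their gcd and multiplied by a common factor such that they are `1` modulo `v R`, `R` = the product of the primes `p ≤ K` dividing `v`, and prime to `u` (NRM);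
the constants are `H_φ = (u + t w_φ)/v + o_φ` with `t` such that all `(u + t w_φ)/v` are prime to `K!` and to all slopes (TTT). For two labels of one tuple `A H(T φ) - B H(T' φ) = u (A - B)/v + A S_i (tr π - tr π')`.

RULES. Row `XX`: file `Pool/Agent/<seat>/FG/XX.lean`, `import Pool.Agent.helper76.FG.Spec`, `namespace Pool.Agent.FG`, theorem lines exactly as in the lock notes, auxiliary lemmas prefixed `XX_`. No `convert`, no `congr!`, no `native_decide`, no straight double quotes, no `#` directly before a lower case letter.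
-/

set_option autoImplicit false

namespace Pool.Agent.FG

open Finset
open Pool.Agent.FR (mean)
open Pool.Agent.DP (CORE2_stmt)
open Pool.Agent.FP (fa DataU rd)
open Pool.Agent.IT (Ad)

/-- the product of the primes `p ≤ K` which divide `v` -/
def rK (v K : ℕ) : ℕ := ∏ p ∈ (range (K + 1)).filter (fun p => p.Prime ∧ p ∣ v), p

/-- the constant of the `n`-th iterate of the case with the ratio `r` and the fixed point `u/v` -/
def cx (u : ℤ) (v n : ℕ) (r : ℕ × ℕ) : ℤ := u * ((r.1 : ℤ) ^ n - (r.2 : ℤ) ^ n) / v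

/-- `r` is the ratio of a case with the fixed point `u/v` whose `n`-th iterate is the identity modulo the primes `p ≤ K` dividing `v` -/
def Cx (u : ℤ) (v n K : ℕ) (r : ℕ × ℕ) : Prop :=
  (v : ℤ) ∣ (r.1 : ℤ) - r.2 ∧ Ad r.1 r.2 (cx u v 1 r) ∧ ∀ p : ℕ, p.Prime → p ≤ K → p ∣ v → (p : ℤ) ∣ cx u v n r

/-- the `n`-th iterate is true for at least the proportion `1 - ε` in every long interval of every class near its constant -/
def GoodX (ε : ℝ) (u : ℤ) (v n : ℕ) (r : ℕ × ℕ) : Prop := Pool.Agent.SK.Dens (1 - ε) (r.1 ^ n) (r.2 ^ n) (cx u v n r)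

open Classical in
/-- **IDQ** (medium; pure; helper76). As `IDG`, but `G` is chosen before the slopes `s`. -/
def IDQ_stmt : Prop := ∀ (ι : Type) [Fintype ι] (η : ℝ), 0 < η → ∃ G : ℕ, 1 ≤ G ∧ ∀ s : ι → ℕ, (∀ i, 1 ≤ s i) →
  ∃ (w : Fin G → ℕ) (g : ι → Equiv.Perm (Fin G)) (P : ℕ), 1 ≤ P ∧ (∀ γ, ∃ e : ι → ℕ, w γ = ∏ i, s i ^ e i) ∧
    ∀ (V : ι → ℤ) (Q : ℤ), (∀ i, Q * P ∣ V i) → ∃ o : Fin G → ℤ, (∀ γ, Q ∣ o γ) ∧ ∀ i,
      (#{γ | ¬ (w (g i γ) = s i * w γ ∧ o (g i γ) = s i * o γ + V i)} : ℝ) ≤ η * G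

/-- **NRM** (short-medium; pure number theory). Let `g` be the gcd of the `S i` and `q i = S i / g` (for `k = 0` nothing is to do). No prime `p` divides all `q i`. (1) `gcd(q i, V) = 1`: if `p ∣ V`, `p ∣ q i`, take `j` with `p ∤ q j`; `A q i = B q j` gives `p ∣ B` (`A = A i j`, `B = B i j`), and `p ∣ V ∣ A - B` gives `p ∣ A`,
against `gcd(A, B) = 1`. (2) `q i = q j` modulo `V`: `A q i = B q j`, `A = B` modulo `V`, and `A` is prime to `V` (a prime dividing `V` and `A` divides `B`). (3) `gcd(q i, u) = 1`: if `p ∣ u`, `p ∣ q i`, take `j` with `p ∤ q j`: `p ∣ B`, against `gcd(u, A B) = 1`. Choose (Chinese remainder theorem, `gcd(u, V) = 1`) `σ ≥ 1` with `σ q i = 1` modulo `V`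
and `σ = 1` modulo `u` (for instance `σ` positive, `σ = 1 + u x`). `S' i = σ q i`. -/
def NRM_stmt : Prop := ∀ (k : ℕ) (S : Fin k → ℕ) (A B : Fin k → Fin k → ℕ) (u : ℤ) (V : ℕ), 1 ≤ V → u ≠ 0 → (∀ i, 1 ≤ S i) → IsCoprime u (V : ℤ) →
  (∀ i j, Nat.Coprime (A i j) (B i j) ∧ A i j * S i = B i j * S j ∧ (V : ℤ) ∣ (A i j : ℤ) - B i j ∧ IsCoprime u ((A i j * B i j : ℕ) : ℤ)) →
  ∃ S' : Fin k → ℕ, (∀ i, 1 ≤ S' i ∧ (V : ℤ) ∣ (S' i : ℤ) - 1 ∧ IsCoprime u (S' i : ℤ)) ∧ ∀ i j, A i j * S' i = B i j * S' j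

/-- **TTT** (short-medium; pure number theory). `N₁` = the product of the primes `p ∣ K! W` with `p ∤ u`, `p ∤ v`; `N₂` = the product of the primes `p ∣ K! W` with `p ∣ u` (so `p ∤ v`). `N₁`, `N₂`, `v rK` are pairwise prime (the primes dividing `rK` divide `v`). By the Chinese remainder theorem there is `t` with `t = 0` modulo `N₁`, `t = 1` modulo `N₂`, `t = v - u` modulo `v rK`.
Let `w = 1` modulo `v rK`: `u + t w = u + (v - u) = v` modulo `v rK`, so `u + t w = v H` with `H = 1` modulo `rK`. Let `p ∣ K! W`. `p ∣ v`: `p ∤ W`, so `p ≤ K` and `p ∣ rK`: `H = 1` modulo `p`. `p ∤ v`, `p ∤ u`: `v H = u` modulo `p`. `p ∣ u`: `v H = w` modulo `p`, and `p ∤ w` (otherwise `p ∣ W`, against `gcd(u, W) = 1`). So `p ∤ H`. -/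
def TTT_stmt : Prop := ∀ (u : ℤ) (v K W : ℕ), u ≠ 0 → 1 ≤ v → 1 ≤ W → IsCoprime u (v : ℤ) → IsCoprime u (W : ℤ) → Nat.Coprime W v →
  ∃ t : ℤ, ∀ w : ℕ, ((v * rK v K : ℕ) : ℤ) ∣ (w : ℤ) - 1 → (∀ p : ℕ, p.Prime → p ∣ w → p ∣ W) →
    ∃ H : ℤ, (v : ℤ) * H = u + t * w ∧ IsCoprime H ((K.factorial * W : ℕ) : ℤ)

/-- every set of more than `k/4` indices contains a bad pair -/
def BadG {k : ℕ} (ε : ℝ) (u : ℤ) (v n : ℕ) (s : Fin k → ℕ) : Prop := ∀ S : Finset (Fin k), k < 4 * #S → ∃ i ∈ S, ∃ j ∈ S, i ≠ j ∧ ¬ GoodX ε u v n (rd (s i) (s j))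

/-- a family of bad tuples with disjoint sets of ratios -/
def FamG {k : ℕ} (ε : ℝ) (u : ℤ) (v n K : ℕ) (N : ℕ) (s : Fin N → Fin k → ℕ) : Prop := (∀ τ i, 1 ≤ s τ i) ∧ (∀ τ, Function.Injective (s τ)) ∧
  (∀ τ i j, i ≠ j → Cx u v n K (rd (s τ i) (s τ j))) ∧ (∀ τ, BadG ε u v n (s τ)) ∧
  ∀ τ τ' i j i' j', τ ≠ τ' → i ≠ j → i' ≠ j' → rd (s τ i) (s τ j) ≠ rd (s τ' i') (s τ' j')

/-- **MDK** (long; helper76; model Pool/Agent/helper76/FE/MDH.lean). -/
def MDK_stmt : Prop := ∀ k : ℕ, 1 ≤ k → ∃ c₀ : ℝ, 0 < c₀ ∧ c₀ ≤ 1 ∧ ∀ ε : ℝ, 0 < ε → ε ≤ 1 → ∀ N : ℕ, ∃ K : ℕ, ∀ (u : ℤ) (v n : ℕ), u ≠ 0 → 1 ≤ v → 1 ≤ n → IsCoprime u (v : ℤ) →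
  ∀ s : Fin N → Fin k → ℕ, FamG ε u v n K N s → ∀ e : ℝ, 0 < e → DataU N (c₀ * ε) e

/-- **FGC** (short-medium; helper76; from MDK and CORE2). -/
def FGC_stmt : Prop := ∀ k : ℕ, 1 ≤ k → ∃ C : ℝ, 0 < C ∧ ∀ ε : ℝ, 0 < ε → ε ≤ 1 → ∃ K : ℕ, ∀ (u : ℤ) (v n : ℕ), u ≠ 0 → 1 ≤ v → 1 ≤ n → IsCoprime u (v : ℤ) →
  ∃ E : Finset (ℕ × ℕ), (#E : ℝ) ≤ C / ε ^ 4 ∧ ∀ s : Fin k → ℕ, (∀ i, 1 ≤ s i) → Function.Injective s →
    (∀ i j, i ≠ j → rd (s i) (s j) ∉ E ∧ Cx u v n K (rd (s i) (s j))) →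
    ∃ S : Finset (Fin k), k < 4 * #S ∧ ∀ i ∈ S, ∀ j ∈ S, i ≠ j → GoodX ε u v n (rd (s i) (s j))

end Pool.Agent.FG
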