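import Pool.Agent.helper76.FG.Spec
import Pool.Agent.helper76.FE.FEC

/-!
# Project FG (MP_bf63dc_nt), row FGC: a maximal family of bad tuples gives the exceptional set of ratios
-/

set_option autoImplicit false

namespace Pool.Agent.FG

open Finset
open Pool.Agent.FR (mean)
open Pool.Agent.DP (CORE2_stmt)
open Pool.Agent.FP (DataU rd)

theorem FGC (hMDK : MDK_stmt) (hCORE : CORE2_stmt) : FGC_stmt := by
  classical
  intro k hk
  obtain ⟨c₀, hc0, -, h⟩ := hMDK k hk
  have hk0 : (0 : ℝ) < k := by exact_mod_cast hk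
  refine ⟨k ^ 2 * (32 / c₀ ^ 4), by positivity, fun ε hε hε1 => ?_⟩
  obtain ⟨B, hB⟩ : ∃ B : ℝ, B = 32 / (c₀ * ε) ^ 4 := ⟨_, rfl⟩
  have hB0 : 0 < B := by rw [hB]; positivity
  obtain ⟨K, h1⟩ := h ε hε hε1 (⌊B⌋₊ + 1)
  refine ⟨K, fun u v n hu hv hn huv => ?_⟩
  by_contra hcon
  push Not at hcon
  have hfam : ∀ N : ℕ, N ≤ ⌊B⌋₊ + 1 → ∃ s : Fin N → Fin k → ℕ, FamG ε u v n K N s := by
    intro N
    induction N with
    | zero =>
      intro _
      exact ⟨fun τ => τ.elim0, fun τ => τ.elim0, fun τ => τ.elim0, fun τ => τ.elim0, fun τ => τ.elim0, fun τ => τ.elim0⟩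
    | succ N ih =>
      intro hN
      obtain ⟨s, hs⟩ := ih (by omega)
      obtain ⟨E, hE⟩ : ∃ E : Finset (ℕ × ℕ), E = (univ : Finset (Fin N × Fin k × Fin k)).image (fun z => rd (s z.1 z.2.1) (s z.1 z.2.2)) := ⟨_, rfl⟩
      have hEmem : ∀ τ i j, rd (s τ i) (s τ j) ∈ E := by
        intro τ i j
        rw [hE, mem_image]
        exact ⟨(τ, i, j), mem_univ _, rfl⟩
      have hEc : (#E : ℝ) ≤ k ^ 2 * (32 / c₀ ^ 4) / ε ^ 4 := by
        have h2 : E.card ≤ N * (k * k) := by
          rw [hE]
          refine card_image_le.trans (le_of_eq ?_)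
          rw [card_univ, Fintype.card_prod, Fintype.card_prod, Fintype.card_fin, Fintype.card_fin]
        have h3 : (N : ℝ) ≤ B := by
          have h4 : N ≤ ⌊B⌋₊ := by omega
          exact (Nat.cast_le.2 h4).trans (Nat.floor_le hB0.le)
        calc (E.card : ℝ) ≤ ((N * (k * k) : ℕ) : ℝ) := by exact_mod_cast h2
          _ = k ^ 2 * N := by push_cast; ring
          _ ≤ k ^ 2 * B := mul_le_mul_of_nonneg_left h3 (by positivity)
          _ = k ^ 2 * (32 / c₀ ^ 4) / ε ^ 4 := by rw [hB, mul_pow]; field_simp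
      obtain ⟨t, ht1, htinj, htE, hbad⟩ := hcon E hEc
      obtain ⟨f1, f2, f5, f3, f4⟩ := hs
      refine ⟨Fin.cons t s, ?_, ?_, ?_, ?_, ?_⟩
      · intro τ
        refine Fin.cases ?_ (fun z => ?_) τ
        · rw [Fin.cons_zero]
          exact ht1
        · rw [Fin.cons_succ]
          exact f1 z
      · intro τ
        refine Fin.cases ?_ (fun z => ?_) τ
        · rw [Fin.cons_zero]
          exact htinj
        · rw [Fin.cons_succ]
          exact f2 z
      · intro τ
        refine Fin.cases ?_ (fun z => ?_) τ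
        · rw [Fin.cons_zero]
          exact fun i j hij => (htE i j hij).2
        · rw [Fin.cons_succ]
          exact f5 z
      · intro τ
        refine Fin.cases ?_ (fun z => ?_) τ
        · rw [Fin.cons_zero]
          exact hbad
        · rw [Fin.cons_succ]
          exact f3 z
      · intro τ τ' i j i' j'
        refine Fin.cases ?_ (fun z => ?_) τ
        · refine Fin.cases ?_ (fun z' => ?_) τ'
          · intro h5
            exact absurd rfl h5
          · intro _ hij _
            rw [Fin.cons_zero, Fin.cons_succ]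
            intro h6
            exact (htE i j hij).1 (by rw [h6]; exact hEmem z' i' j')
        · refine Fin.cases ?_ (fun z' => ?_) τ'
          · intro _ _ hij
            rw [Fin.cons_zero, Fin.cons_succ]
            intro h6
            exact (htE i' j' hij).1 (by rw [← h6]; exact hEmem z i j)
          · intro h5 hij hij'
            rw [Fin.cons_succ, Fin.cons_succ]
            exact f4 z z' i j i' j' (fun h6 => h5 (by rw [h6])) hij hij'
  obtain ⟨s, hs⟩ := hfam (⌊B⌋₊ + 1) le_rfl
  have h2 := Pool.Agent.FE.FEC_num hCORE (⌊B⌋₊ + 1) (c₀ * ε) (by positivity) (h1 u v n hu hv hn huv s hs)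
  rw [← hB] at h2
  have h3 := Nat.lt_floor_add_one B
  push_cast at h2
  linarith

end Pool.Agent.FG
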