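import Pool.Agent.helper76.FG.Spec
import Pool.Agent.helper76.FE.MDH

/-!
# Project FG (MP_bf63dc_nt), row MDK: the data of the counting argument for the cases with a given fixed point
-/

set_option autoImplicit false

namespace Pool.Agent.FG

open Finset
open Pool.Agent.FR (mean PRJ_add PRJ_sub PRJ_mul PRJ_sum PRJ_mono PRJ_nonneg PRJ_const PRJ_abs PRJ_le_const EXC_cop EXC_dvd)
open Pool.Agent.AT (Qk Pair)
open Pool.Agent.HF (Om TC)
open Pool.Agent.DP (Fm PrE CORE2_stmt Fm_bound MO_mono_const)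
open Pool.Agent.FP (fa DataU fa_bound Lab Fc tr PLC_stmt PIG_stmt)
open Pool.Agent.IT (Ad br)

open Pool.Agent.FP (rd rd_pos rd_cop)
open Pool.Agent.FE (FCV_stmt BAG_stmt ONG_stmt BV BV_abs MDH_ort)

theorem rd_mul (s t : ℕ) (hs : 1 ≤ s) : (rd s t).1 * s = (rd s t).2 * t := by
  have hg : 0 < Nat.gcd s t := Nat.gcd_pos_of_pos_left _ hs
  unfold rd
  dsimp only
  have h1 := Nat.div_mul_cancel (Nat.gcd_dvd_left s t)
  have h2 := Nat.div_mul_cancel (Nat.gcd_dvd_right s t)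
  calc t / Nat.gcd s t * s = t / Nat.gcd s t * (s / Nat.gcd s t * Nat.gcd s t) := by rw [h1]
    _ = s / Nat.gcd s t * (t / Nat.gcd s t * Nat.gcd s t) := by ring
    _ = s / Nat.gcd s t * t := by rw [h2]

theorem rd_ne (s t : ℕ) (hs : 1 ≤ s) (h : s ≠ t) : (rd s t).1 ≠ (rd s t).2 := by
  intro he
  have h1 := rd_mul s t hs
  rw [he] at h1
  have hg : 0 < Nat.gcd s t := Nat.gcd_pos_of_pos_left _ hs
  have h2 : 0 < (rd s t).2 := Nat.div_pos (Nat.le_of_dvd hs (Nat.gcd_dvd_left s t)) hg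
  exact h (Nat.eq_of_mul_eq_mul_left h2 h1)

open Classical in
/-- an enumeration of the bad pairs -/
theorem MDK_pq {k : ℕ} (hk : 1 ≤ k) (ε : ℝ) (u : ℤ) (v n : ℕ) (s : Fin k → ℕ) (hs : BadG ε u v n s) : ∃ p q : Fin k × Fin k → Fin k, (∀ e, p e ≠ q e) ∧
    (∀ e, ¬ GoodX ε u v n (rd (s (p e)) (s (q e)))) ∧ ∀ S : Finset (Fin k), (∀ e, ¬ (p e ∈ S ∧ q e ∈ S)) → 4 * #S ≤ k := by
  obtain ⟨i, -, j, -, hij, hb⟩ := hs univ (by rw [card_univ, Fintype.card_fin]; omega)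
  refine ⟨fun e => if e.1 ≠ e.2 ∧ ¬ GoodX ε u v n (rd (s e.1) (s e.2)) then e.1 else i,
    fun e => if e.1 ≠ e.2 ∧ ¬ GoodX ε u v n (rd (s e.1) (s e.2)) then e.2 else j, ?_, ?_, ?_⟩
  · intro e
    dsimp only
    by_cases h : e.1 ≠ e.2 ∧ ¬ GoodX ε u v n (rd (s e.1) (s e.2))
    · rw [if_pos h, if_pos h]
      exact h.1
    · rw [if_neg h, if_neg h]
      exact hij
  · intro e
    dsimp only
    by_cases h : e.1 ≠ e.2 ∧ ¬ GoodX ε u v n (rd (s e.1) (s e.2))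
    · rw [if_pos h, if_pos h]
      exact h.2
    · rw [if_neg h, if_neg h]
      exact hb
  · intro S hS
    by_contra hcon
    push Not at hcon
    obtain ⟨a, ha, b, hb', hab, hbad⟩ := hs S hcon
    apply hS (a, b)
    have h : (a, b).1 ≠ (a, b).2 ∧ ¬ GoodX ε u v n (rd (s (a, b).1) (s (a, b).2)) := ⟨hab, hbad⟩
    dsimp only
    rw [if_pos h, if_pos h]
    exact ⟨ha, hb'⟩

theorem rK_pos (v K : ℕ) : 1 ≤ rK v K := by
  have h : 0 < rK v K := by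
    unfold rK
    exact Finset.prod_pos fun p hp => (mem_filter.1 hp).2.1.pos
  exact h

/-- the constants -/
theorem MDK_cx (u : ℤ) (v n K : ℕ) (r : ℕ × ℕ) (hv : 1 ≤ v) (huv : IsCoprime u (v : ℤ)) (h : Cx u v n K r) :
    (v : ℤ) * cx u v n r = u * ((r.1 : ℤ) ^ n - (r.2 : ℤ) ^ n) ∧ ((v * rK v K : ℕ) : ℤ) ∣ (r.1 : ℤ) ^ n - (r.2 : ℤ) ^ n ∧ IsCoprime u ((r.1 ^ n * r.2 ^ n : ℕ) : ℤ) := by
  obtain ⟨hd, hAd, hp⟩ := h
  obtain ⟨y, hy⟩ := hd.trans (sub_dvd_pow_sub_pow (r.1 : ℤ) (r.2 : ℤ) n)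
  have hv0 : (v : ℤ) ≠ 0 := by exact_mod_cast (by omega : v ≠ 0)
  have hc : cx u v n r = u * y := by
    unfold cx
    rw [hy, ← mul_assoc, mul_comm u (v : ℤ), mul_assoc]
    exact Int.mul_ediv_cancel_left _ hv0
  refine ⟨by rw [hc, hy]; ring, ?_, ?_⟩
  · have h1 : ((rK v K : ℕ) : ℤ) ∣ y := by
      unfold rK
      push_cast
      refine Finset.prod_dvd_of_coprime ?_ ?_
      · intro p hp1 q hq1 hpq
        have hp2 := (mem_filter.1 hp1).2.1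
        have hq2 := (mem_filter.1 hq1).2.1
        exact Int.isCoprime_iff_gcd_eq_one.2 (by
          rw [Int.gcd_natCast_natCast]
          exact (Nat.coprime_primes hp2 hq2).2 hpq)
      · intro p hp1
        obtain ⟨hp2, hp3, hp4⟩ := mem_filter.1 hp1
        have h2 := hp p hp3 (by have := mem_range.1 hp2; omega) hp4
        rw [hc] at h2
        have h3 : IsCoprime (p : ℤ) u := (huv.of_isCoprime_of_dvd_right (Int.natCast_dvd_natCast.2 hp4)).symm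
        exact h3.dvd_of_dvd_mul_left h2
    rw [hy]
    push_cast
    exact mul_dvd_mul_left _ h1
  · obtain ⟨-, -, -, -, h4, h5, -⟩ := hAd
    have hc1 : cx u v 1 r = u * ((r.1 : ℤ) - r.2) / v := by
      unfold cx
      rw [pow_one, pow_one]
    obtain ⟨z, hz⟩ := hd
    have hc2 : cx u v 1 r = u * z := by
      rw [hc1, hz, ← mul_assoc, mul_comm u (v : ℤ), mul_assoc]
      exact Int.mul_ediv_cancel_left _ hv0
    rw [hc2] at h4 h5
    have h6 : IsCoprime u (r.1 : ℤ) := (IsCoprime.of_mul_right_left h4).symm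
    have h7 : IsCoprime u (r.2 : ℤ) := (IsCoprime.of_mul_right_left h5).symm
    push_cast
    exact (h6.pow_right).mul_right (h7.pow_right)

theorem MDK (hIDQ : IDQ_stmt) (hNRM : NRM_stmt) (hTTT : TTT_stmt) (hPLC : PLC_stmt) (hFCV : FCV_stmt) (hBAG : BAG_stmt) (hPIG : PIG_stmt) (hONG : ONG_stmt) (hORT : Pool.Agent.FR.ORT_stmt) : MDK_stmt := by
  classical
  intro k hk
  obtain ⟨t, ht⟩ : ∃ t : ℝ, t = 1 / 4000000 := ⟨_, rfl⟩
  have ht0 : 0 < t := by rw [ht]; norm_num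
  have ht1 : t ≤ 1 := by rw [ht]; norm_num
  obtain ⟨J, hJ1, hJ⟩ : ∃ J : ℕ, 1 ≤ J ∧ 2 * ((Fintype.card (Fin k × Fin k) : ℝ) + 1) * k ≤ t ^ 3 * J := by
    refine ⟨⌈2 * ((Fintype.card (Fin k × Fin k) : ℝ) + 1) * k / t ^ 3⌉₊ + 1, by omega, ?_⟩
    have h1 := Nat.le_ceil (2 * ((Fintype.card (Fin k × Fin k) : ℝ) + 1) * k / t ^ 3)
    rw [div_le_iff₀ (by positivity)] at h1
    push_cast at h1 ⊢
    have h2 : 0 < t ^ 3 := by positivity
    nlinarith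
  have hJ0 : (1 : ℝ) ≤ J := by exact_mod_cast hJ1
  obtain ⟨c₁, hc₁⟩ : ∃ c₁ : ℝ, c₁ = t ^ 3 / (J * Fintype.card (Fin k × Fin k) * (Fintype.card (Fin J → Option (Fin k × Fin k)) : ℝ) ^ 2) := ⟨_, rfl⟩
  have hkk : (1 : ℝ) ≤ Fintype.card (Fin k × Fin k) := by
    have : 1 ≤ Fintype.card (Fin k × Fin k) := by
      rw [Fintype.card_prod, Fintype.card_fin]
      exact Nat.mul_pos hk hk
    exact_mod_cast this
  have hPP : (1 : ℝ) ≤ Fintype.card (Fin J → Option (Fin k × Fin k)) := by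
    have : 1 ≤ Fintype.card (Fin J → Option (Fin k × Fin k)) := Fintype.card_pos
    exact_mod_cast this
  have hc₁0 : 0 < c₁ := by
    rw [hc₁]
    positivity
  have hc₁1 : c₁ ≤ 1 := by
    rw [hc₁, div_le_one (by positivity)]
    have h1 : t ^ 3 ≤ 1 := pow_le_one₀ ht0.le ht1
    have h2 : (1 : ℝ) ≤ (Fintype.card (Fin J → Option (Fin k × Fin k)) : ℝ) ^ 2 := one_le_pow₀ hPP
    have h3 : (1 : ℝ) ≤ J * Fintype.card (Fin k × Fin k) := by nlinarith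
    nlinarith
  refine ⟨c₁ / 4, by positivity, by linarith, fun ε hε hε1 N => ?_⟩
  obtain ⟨η₁, hη₁⟩ : ∃ η₁ : ℝ, η₁ = c₁ * ε / 48 := ⟨_, rfl⟩
  have hη₁0 : 0 < η₁ := by rw [hη₁]; positivity
  obtain ⟨δ, hδ⟩ : ∃ δ : ℝ, δ = min t (c₁ * ε / 12) := ⟨_, rfl⟩
  have hδ0 : 0 < δ := by
    rw [hδ]
    exact lt_min ht0 (by positivity)
  have hδt : δ ≤ t := by
    rw [hδ]
    exact min_le_left _ _
  have hδc : δ ≤ c₁ * ε / 12 := by
    rw [hδ]
    exact min_le_right _ _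
  -- the index set and the moduli
  obtain ⟨G, hG1, hG⟩ := hIDQ (Fin N × Lab J (Fin k × Fin k) k) η₁ hη₁0
  obtain ⟨k', hk'⟩ := hFCV G δ hG1 hδ0
  refine ⟨k', fun u v n hu hv hn huv s hFam e he => ?_⟩
  obtain ⟨hs1, hinj, hCx, hbad, hdis⟩ := hFam
  obtain ⟨V, hV⟩ : ∃ V : ℕ, V = v * rK v k' := ⟨_, rfl⟩
  have hV1 : 1 ≤ V := by
    rw [hV]
    exact Nat.mul_pos hv (rK_pos v k')
  have huV : IsCoprime u (V : ℤ) := by
    rw [hV]
    push_cast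
    refine huv.mul_right ?_
    unfold rK
    push_cast
    refine IsCoprime.prod_right fun p hp => ?_
    exact huv.of_isCoprime_of_dvd_right (Int.natCast_dvd_natCast.2 (mem_filter.1 hp).2.2)
  -- the normalized slopes
  have hnrm : ∀ τ : Fin N, ∃ S' : Fin k → ℕ, (∀ i, 1 ≤ S' i ∧ (V : ℤ) ∣ (S' i : ℤ) - 1 ∧ IsCoprime u (S' i : ℤ)) ∧
      ∀ i j, (rd (s τ i) (s τ j)).1 ^ n * S' i = (rd (s τ i) (s τ j)).2 ^ n * S' j := by
    intro τ
    refine hNRM k (fun i => s τ i ^ n) (fun i j => (rd (s τ i) (s τ j)).1 ^ n) (fun i j => (rd (s τ i) (s τ j)).2 ^ n) u V hV1 hu (fun i => Nat.pow_pos (hs1 τ i)) huV ?_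
    intro i j
    refine ⟨Nat.Coprime.pow _ _ (rd_cop _ _ (hs1 τ i)), ?_, ?_, ?_⟩
    · rw [← mul_pow, ← mul_pow, rd_mul _ _ (hs1 τ i)]
    · by_cases hij : i = j
      · rw [hij]
        have h1 : (rd (s τ j) (s τ j)).1 = (rd (s τ j) (s τ j)).2 := rfl
        rw [h1, sub_self]
        exact dvd_zero _
      · have h1 := (MDK_cx u v n k' _ hv huv (hCx τ i j hij)).2.1
        rw [hV]
        push_cast at h1 ⊢
        exact h1
    · by_cases hij : i = j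
      · rw [hij]
        have h1 : (rd (s τ j) (s τ j)).1 = 1 := by
          unfold rd
          dsimp only
          rw [Nat.gcd_self]
          exact Nat.div_self (hs1 τ j)
        have h2 : (rd (s τ j) (s τ j)).2 = 1 := by
          unfold rd
          dsimp only
          rw [Nat.gcd_self]
          exact Nat.div_self (hs1 τ j)
        rw [h1, h2]
        simp only [one_pow, mul_one, Nat.cast_one]
        exact isCoprime_one_right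
      · exact (MDK_cx u v n k' _ hv huv (hCx τ i j hij)).2.2
  choose S' hS1 hS2 using hnrm
  obtain ⟨w, T, P, hP1, hwe, hVP⟩ := hG (fun z => S' z.1 z.2.2) (fun z => (hS1 _ _).1)
  have hw1 : ∀ γ, 1 ≤ w γ := fun γ => by
    obtain ⟨e', he'⟩ := hwe γ
    rw [he']
    exact Finset.prod_pos fun z _ => Nat.pow_pos (hS1 z.1 z.2.2).1
  obtain ⟨W, hW⟩ : ∃ W : ℕ, W = ∏ z : Fin N × Lab J (Fin k × Fin k) k, S' z.1 z.2.2 := ⟨_, rfl⟩
  have hW1 : 1 ≤ W := by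
    have h0 : 0 < W := by
      rw [hW]
      exact Finset.prod_pos fun z _ => (hS1 z.1 z.2.2).1
    exact h0
  have hwV : ∀ γ, (V : ℤ) ∣ (w γ : ℤ) - 1 := by
    intro γ
    obtain ⟨e', he'⟩ := hwe γ
    have h0 : ∀ z : Fin N × Lab J (Fin k × Fin k) k, ((S' z.1 z.2.2 : ℕ) : ZMod V) = 1 := by
      intro z
      have h1 := (ZMod.intCast_eq_intCast_iff_dvd_sub 1 ((S' z.1 z.2.2 : ℕ) : ℤ) V).2 (hS1 z.1 z.2.2).2.1
      push_cast at h1
      exact h1.symm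
    have h1 : ((w γ : ℕ) : ZMod V) = 1 := by
      rw [he']
      push_cast
      rw [Finset.prod_congr rfl fun z _ => by rw [h0 z, one_pow], Finset.prod_const_one]
    have h2 : ((1 : ℤ) : ZMod V) = (((w γ : ℕ) : ℤ) : ZMod V) := by
      push_cast
      exact h1.symm
    exact (ZMod.intCast_eq_intCast_iff_dvd_sub 1 ((w γ : ℕ) : ℤ) V).1 h2
  have hwW : ∀ γ, ∀ p : ℕ, p.Prime → p ∣ w γ → p ∣ W := by
    intro γ p hp hpw
    obtain ⟨e', he'⟩ := hwe γ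
    rw [he'] at hpw
    obtain ⟨z, -, hz⟩ := (hp.prime.dvd_finsetProd_iff _).1 hpw
    rw [hW]
    exact (hp.dvd_of_dvd_pow hz).trans (Finset.dvd_prod_of_mem (fun z : Fin N × Lab J (Fin k × Fin k) k => S' z.1 z.2.2) (mem_univ z))
  have huW : IsCoprime u (W : ℤ) := by
    rw [hW]
    push_cast
    exact IsCoprime.prod_right fun z _ => (hS1 _ _).2.2
  have hWv : Nat.Coprime W v := by
    rw [hW]
    refine Nat.Coprime.prod_left fun z _ => ?_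
    have h1 : (v : ℤ) ∣ (S' z.1 z.2.2 : ℤ) - 1 := by
      refine dvd_trans ?_ (hS1 z.1 z.2.2).2.1
      rw [hV]
      push_cast
      exact dvd_mul_right _ _
    obtain ⟨y, hy⟩ := h1
    rw [← Nat.isCoprime_iff_coprime]
    refine ⟨1, -y, ?_⟩
    linear_combination hy
  obtain ⟨t', ht'⟩ := hTTT u v k' W hu hv hW1 huv huW hWv
  have hH0 : ∀ γ, ∃ H : ℤ, (v : ℤ) * H = u + t' * w γ ∧ IsCoprime H ((k'.factorial * W : ℕ) : ℤ) := fun γ => ht' (w γ) (by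
    have h1 := hwV γ
    rw [hV] at h1
    exact h1) (hwW γ)
  choose H0 hH1 hH2 using hH0
  have hpq : ∀ τ, ∃ p q : Fin k × Fin k → Fin k, (∀ e, p e ≠ q e) ∧
      (∀ e, ¬ GoodX ε u v n (rd (s τ (p e)) (s τ (q e)))) ∧ ∀ S : Finset (Fin k), (∀ e, ¬ (p e ∈ S ∧ q e ∈ S)) → 4 * #S ≤ k :=
    fun τ => MDK_pq hk ε u v n (s τ) (hbad τ)
  choose p q hpq1 hpq2 hpq3 using hpq
  -- the pairs
  obtain ⟨AA, hAA⟩ : ∃ AA : Fin N → Fin k × Fin k → ℕ, AA = fun τ e => (rd (s τ (p τ e)) (s τ (q τ e))).1 ^ n := ⟨_, rfl⟩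
  obtain ⟨BB, hBB⟩ : ∃ BB : Fin N → Fin k × Fin k → ℕ, BB = fun τ e => (rd (s τ (p τ e)) (s τ (q τ e))).2 ^ n := ⟨_, rfl⟩
  obtain ⟨CC, hCC⟩ : ∃ CC : Fin N → Fin k × Fin k → ℤ, CC = fun τ e => cx u v n (rd (s τ (p τ e)) (s τ (q τ e))) := ⟨_, rfl⟩
  obtain ⟨LL, hLL⟩ : ∃ LL : Fin N → Fin k × Fin k → ℕ, LL = fun τ e => AA τ e * S' τ (p τ e) := ⟨_, rfl⟩
  have hAB1 : ∀ τ e, 1 ≤ AA τ e ∧ 1 ≤ BB τ e := fun τ e => by
    rw [hAA, hBB]
    have h1 := rd_pos (s τ (p τ e)) (s τ (q τ e)) (hs1 _ _) (hs1 _ _)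
    exact ⟨Nat.pow_pos h1.1, Nat.pow_pos h1.2⟩
  obtain ⟨m, hm1, hABm⟩ : ∃ m : ℕ, 1 ≤ m ∧ ∀ τ e, AA τ e ≤ m ∧ BB τ e ≤ m := by
    refine ⟨1 + ∑ z : Fin N × (Fin k × Fin k), (AA z.1 z.2 + BB z.1 z.2), by omega, fun τ e => ?_⟩
    have h1 : AA τ e + BB τ e ≤ ∑ z : Fin N × (Fin k × Fin k), (AA z.1 z.2 + BB z.1 z.2) :=
      single_le_sum (f := fun z : Fin N × (Fin k × Fin k) => AA z.1 z.2 + BB z.1 z.2) (fun _ _ => Nat.zero_le _) (mem_univ (τ, e))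
    constructor <;> omega
  have hm0 : (0 : ℝ) < m := by exact_mod_cast hm1
  obtain ⟨e₁, he₁⟩ : ∃ e₁ : ℝ, e₁ = c₁ * ε / (36 * m) := ⟨_, rfl⟩
  have he₁0 : 0 < e₁ := by rw [he₁]; positivity
  have he₁m : 3 * m * e₁ = c₁ * ε / 12 := by
    rw [he₁]
    field_simp
    ring
  have hABc : ∀ τ e, Nat.Coprime (AA τ e) (BB τ e) := fun τ e => by
    rw [hAA, hBB]
    exact Nat.Coprime.pow _ _ (rd_cop _ _ (hs1 _ _))
  have hABne : ∀ τ e, AA τ e ≠ BB τ e := fun τ e => by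
    rw [hAA, hBB]
    intro h1
    exact rd_ne _ _ (hs1 τ (p τ e)) (fun h2 => hpq1 τ e (hinj τ h2)) (Nat.pow_left_injective (by omega) h1)
  -- the moduli
  obtain ⟨Q₀, hQ₀⟩ : ∃ Q₀ : ℕ, Q₀ = k'.factorial * W := ⟨_, rfl⟩
  have hQ₀1 : 1 ≤ Q₀ := by
    rw [hQ₀]
    exact Nat.mul_pos (Nat.factorial_pos _) hW1
  have hQ₀k : ∀ p : ℕ, p.Prime → p ≤ k' → p ∣ Q₀ := by
    intro p hp hpk
    rw [hQ₀]
    exact (Nat.dvd_factorial hp.pos hpk).mul_right _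
  have hQ₀w : ∀ γ, ∀ p : ℕ, p.Prime → p ∣ w γ → p ∣ Q₀ := by
    intro γ p hp hpw
    rw [hQ₀]
    exact (hwW γ p hp hpw).mul_left _
  obtain ⟨X₀, hX₀f⟩ := hk' w hw1
  -- the places
  have hplc : ∀ τ : Fin N, _ := fun τ => hPLC J (Fin k × Fin k) (fun i => fa (AA τ i, BB τ i)) (CC τ) (LL τ) ε e₁ (Q₀ * P) hε hε1 he₁0 (Nat.mul_pos hQ₀1 hP1)
    (fun i => by
      rw [hLL]
      exact Nat.mul_pos (hAB1 τ i).1 (hS1 _ _).1) (fun i x => fa_bound _ _) (fun i => by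
      have h1 := hpq2 τ i
      unfold GoodX at h1
      have h2 := hBAG ε _ _ _ h1
      rw [hAA, hBB, hCC]
      exact h2)
  choose Q hQ1 hQ2 hQ3 using hplc
  obtain ⟨D, hD⟩ : ∃ D : ℕ, D = Q₀ * P * ∏ τ, Q τ := ⟨_, rfl⟩
  have hD1 : 1 ≤ D := by
    rw [hD]
    exact Nat.mul_pos (Nat.mul_pos hQ₀1 hP1) (Finset.prod_pos fun τ _ => hQ1 τ)
  have hQD : ∀ τ, Q τ ∣ D := by
    intro τ
    rw [hD]
    exact (Finset.dvd_prod_of_mem Q (mem_univ τ)).mul_left _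
  have hQ₀D : Q₀ ∣ D := by
    rw [hD, mul_assoc]
    exact dvd_mul_right _ _
  have hl : ∀ τ : Fin N, _ := fun τ => hQ3 τ D hD1 (hQD τ) (m ^ 2).factorial (Nat.factorial_pos _)
  choose l hl1 hl2 using hl
  obtain ⟨X, hX₀, hX1, hXl⟩ : ∃ X : ℕ, X₀ ≤ X ∧ 1 ≤ X ∧ ∀ τ, 4 * (l τ : ℝ) * ((m ^ 2).factorial : ℕ) * m ≤ e * X := by
    refine ⟨X₀ + 1 + ⌈4 * ((∑ τ, l τ : ℕ) : ℝ) * ((m ^ 2).factorial : ℕ) * m / e⌉₊, by omega, by omega, fun τ => ?_⟩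
    have h1 := Nat.le_ceil (4 * ((∑ τ, l τ : ℕ) : ℝ) * ((m ^ 2).factorial : ℕ) * m / e)
    rw [div_le_iff₀ he] at h1
    have h2 : l τ ≤ ∑ τ, l τ := single_le_sum (f := l) (fun _ _ => Nat.zero_le _) (mem_univ τ)
    have h3 : (l τ : ℝ) ≤ ((∑ τ, l τ : ℕ) : ℝ) := by exact_mod_cast h2
    have h4 : 4 * (l τ : ℝ) * ((m ^ 2).factorial : ℕ) * m ≤ 4 * ((∑ τ, l τ : ℕ) : ℝ) * ((m ^ 2).factorial : ℕ) * m := by
      have h5 : (0 : ℝ) ≤ ((m ^ 2).factorial : ℕ) * m := by positivity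
      nlinarith
    refine h4.trans (h1.trans ?_)
    push_cast
    have h6 : (0 : ℝ) ≤ (X₀ : ℝ) := Nat.cast_nonneg _
    nlinarith
  have hX0 : (0 : ℝ) < X := by exact_mod_cast hX1
  have hDel : ∀ τ : Fin N, _ := fun τ => hl2 τ (m * X)
  choose Del hDel1 hDel2 using hDel
  have htr : ∀ τ (π : Fin J → Option (Fin k × Fin k)), ((Q₀ * P : ℕ) : ℤ) ∣ tr (Del τ) π := by
    intro τ π
    unfold tr
    refine Finset.dvd_sum fun j _ => ?_
    rcases π j with _ | i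
    · exact dvd_zero _
    · exact hDel1 τ j i
  obtain ⟨o, ho1, ho2⟩ := hVP (fun z => (S' z.1 z.2.2 : ℤ) * tr (Del z.1) z.2.1) (Q₀ : ℤ) (fun z => by
    have h1 := htr z.1 z.2.1
    push_cast at h1
    exact h1.mul_left _)
  obtain ⟨H, hH⟩ : ∃ H : Fin G → ℤ, H = fun γ => H0 γ + o γ := ⟨_, rfl⟩
  obtain ⟨f, hf1, hf2, hf3⟩ := hX₀f Q₀ hQ₀1 hQ₀k hQ₀w D X H hD1 hQ₀D hX₀ hX1 (fun γ => by
    obtain ⟨z, hz⟩ := ho1 γ
    have h1 := hH2 γ
    rw [← hQ₀] at h1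
    obtain ⟨u', v', huv'⟩ := h1
    refine ⟨u', v' - u' * z, ?_⟩
    rw [hH]
    dsimp only
    rw [hz]
    linear_combination huv')
  have : Nonempty (Fin G) := ⟨⟨0, hG1⟩⟩
  have : Nonempty (Fin X) := ⟨⟨0, hX1⟩⟩
  -- the facing pairs
  have hpig : ∀ τ : Fin N, ∃ (j : Fin J) (i : Fin k × Fin k) (π π' : Fin J → Option (Fin k × Fin k)), Fc j i π π' ∧
      c₁ ≤ mean fun φ => mean (f (T (τ, (π, p τ i)) φ)) * mean (f (T (τ, (π', q τ i)) φ)) := by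
    intro τ
    rw [hc₁]
    exact hPIG k J (Fin k × Fin k) (p τ) (q τ) t G (fun φ => mean (f φ)) (fun x => T (τ, x)) hk hJ1 hG1 ht0 ht1
      (fun φ => ⟨PRJ_nonneg fun x => (hf1 φ x).1, PRJ_le_const fun x => (hf1 φ x).2⟩) (hpq3 τ) hJ (by
        refine le_trans ?_ hf2
        rw [ht] at hδt ⊢
        linarith)
  choose j i π π' hFc hcor using hpig
  refine ⟨Fin G, Fin X, inferInstance, inferInstance, inferInstance, inferInstance, f,
    fun τ => (T (τ, (π' τ, q τ (i τ)))).symm.trans (T (τ, (π τ, p τ (i τ)))),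
    fun τ => BV (AA τ (i τ)) (BB τ (i τ)) D (m ^ 2).factorial (l τ) (CC τ (i τ) + LL τ (i τ) * (tr (Del τ) (π τ) - tr (Del τ) (π' τ))) X, hf1,
    fun τ z => BV_abs _ _ _ _ _ _, fun τ => ?_, fun τ τ' hne => ?_⟩
  · obtain ⟨hFc1, hFc2, hFc3⟩ := hFc τ
    have hexc : (#{φ | ¬ (AA τ (i τ) * w (T (τ, (π τ, p τ (i τ))) φ) = BB τ (i τ) * w (T (τ, (π' τ, q τ (i τ))) φ) ∧
        (AA τ (i τ) : ℤ) * H (T (τ, (π τ, p τ (i τ))) φ) - BB τ (i τ) * H (T (τ, (π' τ, q τ (i τ))) φ) = CC τ (i τ) + LL τ (i τ) * (tr (Del τ) (π τ) - tr (Del τ) (π' τ)))} : ℝ) ≤ 2 * η₁ * G := by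
      have h1 := ho2 (τ, (π τ, p τ (i τ)))
      have h2 := ho2 (τ, (π' τ, q τ (i τ)))
      have h3 : #{φ | ¬ (AA τ (i τ) * w (T (τ, (π τ, p τ (i τ))) φ) = BB τ (i τ) * w (T (τ, (π' τ, q τ (i τ))) φ) ∧
          (AA τ (i τ) : ℤ) * H (T (τ, (π τ, p τ (i τ))) φ) - BB τ (i τ) * H (T (τ, (π' τ, q τ (i τ))) φ) = CC τ (i τ) + LL τ (i τ) * (tr (Del τ) (π τ) - tr (Del τ) (π' τ)))} ≤
          #{γ | ¬ (w (T (τ, (π τ, p τ (i τ))) γ) = S' τ (p τ (i τ)) * w γ ∧ o (T (τ, (π τ, p τ (i τ))) γ) = S' τ (p τ (i τ)) * o γ + S' τ (p τ (i τ)) * tr (Del τ) (π τ))} +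
          #{γ | ¬ (w (T (τ, (π' τ, q τ (i τ))) γ) = S' τ (q τ (i τ)) * w γ ∧ o (T (τ, (π' τ, q τ (i τ))) γ) = S' τ (q τ (i τ)) * o γ + S' τ (q τ (i τ)) * tr (Del τ) (π' τ))} := by
        refine le_trans (card_le_card ?_) (card_union_le _ _)
        intro φ hφ
        have hφ2 := (mem_filter.1 hφ).2
        by_contra hcon
        rw [mem_union, not_or] at hcon
        obtain ⟨hc1, hc2⟩ := hcon
        have hc1' := not_not.1 fun hn => hc1 (mem_filter.2 ⟨mem_univ _, hn⟩)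
        have hc2' := not_not.1 fun hn => hc2 (mem_filter.2 ⟨mem_univ _, hn⟩)
        obtain ⟨hw1', hr1⟩ := hc1'
        obtain ⟨hw2', hr2⟩ := hc2'
        apply hφ2
        have hAS : AA τ (i τ) * S' τ (p τ (i τ)) = BB τ (i τ) * S' τ (q τ (i τ)) := by
          rw [hAA, hBB]
          exact hS2 τ (p τ (i τ)) (q τ (i τ))
        have hASz : (AA τ (i τ) : ℤ) * S' τ (p τ (i τ)) = BB τ (i τ) * S' τ (q τ (i τ)) := by exact_mod_cast hAS
        constructor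
        · rw [hw1', hw2', ← mul_assoc, ← mul_assoc, hAS]
        · have hcx : (v : ℤ) * CC τ (i τ) = u * ((AA τ (i τ) : ℤ) - BB τ (i τ)) := by
            rw [hCC, hAA, hBB]
            have h4 := (MDK_cx u v n k' _ hv huv (hCx τ _ _ (hpq1 τ (i τ)))).1
            push_cast
            exact h4
          have hv0 : (v : ℤ) ≠ 0 := by exact_mod_cast (by omega : v ≠ 0)
          have hw1z : ((w (T (τ, (π τ, p τ (i τ))) φ) : ℕ) : ℤ) = S' τ (p τ (i τ)) * w φ := by exact_mod_cast hw1'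
          have hw2z : ((w (T (τ, (π' τ, q τ (i τ))) φ) : ℕ) : ℤ) = S' τ (q τ (i τ)) * w φ := by exact_mod_cast hw2'
          have e1 := hH1 (T (τ, (π τ, p τ (i τ))) φ)
          have e2 := hH1 (T (τ, (π' τ, q τ (i τ))) φ)
          rw [hw1z] at e1
          rw [hw2z] at e2
          have e3 : (AA τ (i τ) : ℤ) * H0 (T (τ, (π τ, p τ (i τ))) φ) - BB τ (i τ) * H0 (T (τ, (π' τ, q τ (i τ))) φ) = CC τ (i τ) := by
            apply mul_left_cancel₀ hv0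
            linear_combination (AA τ (i τ) : ℤ) * e1 - (BB τ (i τ) : ℤ) * e2 + t' * w φ * hASz - hcx
          rw [hH, hLL]
          dsimp only
          rw [hr1, hr2]
          push_cast
          linear_combination e3 + (o φ + tr (Del τ) (π' τ)) * hASz
      have h4 : (#{φ | ¬ (AA τ (i τ) * w (T (τ, (π τ, p τ (i τ))) φ) = BB τ (i τ) * w (T (τ, (π' τ, q τ (i τ))) φ) ∧
          (AA τ (i τ) : ℤ) * H (T (τ, (π τ, p τ (i τ))) φ) - BB τ (i τ) * H (T (τ, (π' τ, q τ (i τ))) φ) = CC τ (i τ) + LL τ (i τ) * (tr (Del τ) (π τ) - tr (Del τ) (π' τ)))} : ℝ) ≤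
          (#{γ | ¬ (w (T (τ, (π τ, p τ (i τ))) γ) = S' τ (p τ (i τ)) * w γ ∧ o (T (τ, (π τ, p τ (i τ))) γ) = S' τ (p τ (i τ)) * o γ + S' τ (p τ (i τ)) * tr (Del τ) (π τ))} : ℝ) +
          (#{γ | ¬ (w (T (τ, (π' τ, q τ (i τ))) γ) = S' τ (q τ (i τ)) * w γ ∧ o (T (τ, (π' τ, q τ (i τ))) γ) = S' τ (q τ (i τ)) * o γ + S' τ (q τ (i τ)) * tr (Del τ) (π' τ))} : ℝ) := by
        exact_mod_cast h3
      refine h4.trans ?_
      have h5 : 2 * η₁ * (G : ℝ) = η₁ * G + η₁ * G := by ring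
      rw [h5]
      exact add_le_add h1 h2
    have h1 := hONG G X m D (m ^ 2).factorial (l τ) (AA τ (i τ)) (BB τ (i τ)) (CC τ (i τ) + LL τ (i τ) * (tr (Del τ) (π τ) - tr (Del τ) (π' τ))) w H
      (T (τ, (π τ, p τ (i τ)))) (T (τ, (π' τ, q τ (i τ)))) f ε (2 * η₁) δ e₁
      hG1 hX1 hD1 (hl1 τ) hε hε1 (by linarith) hδ0.le he₁0.le (hAB1 τ _).1 (hAB1 τ _).2 (hABm τ _).1 (hABm τ _).2 (hABc τ _) (hABne τ _) hw1 hexc hf1 hf3
      (hDel2 τ (j τ) (i τ) (π τ) (π' τ) hFc1 hFc2 hFc3)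
    have h2 : (mean fun φ => mean fun z : Fin X × Fin X => f (((T (τ, (π' τ, q τ (i τ)))).symm.trans (T (τ, (π τ, p τ (i τ))))) φ) z.1 * f φ z.2 *
        BV (AA τ (i τ)) (BB τ (i τ)) D (m ^ 2).factorial (l τ) (CC τ (i τ) + LL τ (i τ) * (tr (Del τ) (π τ) - tr (Del τ) (π' τ))) X z) =
        mean fun φ => mean fun z : Fin X × Fin X => f (T (τ, (π τ, p τ (i τ))) φ) z.1 * f (T (τ, (π' τ, q τ (i τ))) φ) z.2 *
        BV (AA τ (i τ)) (BB τ (i τ)) D (m ^ 2).factorial (l τ) (CC τ (i τ) + LL τ (i τ) * (tr (Del τ) (π τ) - tr (Del τ) (π' τ))) X z := by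
      unfold mean
      congr 1
      rw [← Equiv.sum_comp (T (τ, (π' τ, q τ (i τ))))]
      refine Finset.sum_congr rfl fun φ _ => ?_
      simp only [Equiv.trans_apply, Equiv.symm_apply_apply]
    rw [h2]
    have h3 := hcor τ
    have h4 : ε / 2 * c₁ ≤ ε / 2 * mean fun φ => mean (f (T (τ, (π τ, p τ (i τ))) φ)) * mean (f (T (τ, (π' τ, q τ (i τ))) φ)) :=
      mul_le_mul_of_nonneg_left h3 (by linarith)
    refine le_trans ?_ h1
    rw [he₁m]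
    have h5 : 2 * (2 * η₁) = c₁ * ε / 12 := by rw [hη₁]; ring
    rw [h5]
    linarith
  · have h1 := MDH_ort hORT m D (l τ) (l τ') X (AA τ (i τ)) (BB τ (i τ)) (AA τ' (i τ')) (BB τ' (i τ')) (CC τ (i τ) + LL τ (i τ) * (tr (Del τ) (π τ) - tr (Del τ) (π' τ)))
      (CC τ' (i τ') + LL τ' (i τ') * (tr (Del τ') (π τ') - tr (Del τ') (π' τ')))
      (hAB1 _ _).1 (hABm _ _).1 (hABm _ _).2 (hABm _ _).1 (hABm _ _).2 (hABc _ _) (hABc _ _) (by
        rw [hAA, hBB]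
        intro h6
        have h7 := Nat.pow_left_injective (by omega : n ≠ 0) (congrArg Prod.fst h6)
        have h8 := Nat.pow_left_injective (by omega : n ≠ 0) (congrArg Prod.snd h6)
        exact hdis τ τ' _ _ _ _ hne (hpq1 _ _) (hpq1 _ _) (Prod.ext h7 h8)) (hl1 τ) hX1
    refine h1.trans ?_
    rw [div_le_iff₀ hX0]
    exact hXl τ

end Pool.Agent.FG
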