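import Pool.Agent.helper76.FG.IDQ
import Pool.Agent.helper76.FG.MDK
import Pool.Agent.helper76.FG.FGC
import Pool.Agent.helper76.FE.All
import Pool.Agent.helper57.FG.NRM
import Pool.Agent.helper75.FG.TTT

/-!
# Project FG (MP_bf63dc_nt): the cases of Q1 with a given fixed point
-/

set_option autoImplicit false

namespace Pool.Agent.FG

open Pool.Agent.FP (PLC PIG STL COR CNX CLV)
open Pool.Agent.FE (FCV BAG ONG)

/-- for every `k` and `ε` there is an absolute `K` such that for EVERY `u/v ≠ 0` and `n ≥ 1` there is a set of at most `C/ε^4` ratios such that of any `k` different positive integers whose ratios are outside it and belong to cases with the fixed point `u/v` (with the `n`-th iterate trivial modulo the primes `p ≤ K` dividing `v`) more than `k/4` have pairwise good `n`-th iterates -/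
theorem fgc : FGC_stmt :=
  FGC (MDK IDQ NRM TTT PLC (FCV Pool.Agent.AT.Q_all CLV Pool.Agent.DP.Z_FCP) BAG (PIG STL) (ONG COR CNX) Pool.Agent.FR.ORT) Pool.Agent.DP.CORE2

end Pool.Agent.FG
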