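import Pool.Agent.helper76.FG.Spec
import Pool.Agent.helper38.DP.IDX

/-!
# Row fg:IDQ: the finite index set with permutations, chosen before the slopes
-/

set_option autoImplicit false

namespace Pool.Agent.FG

open Finset

theorem IDQ : IDQ_stmt := by
  classical
  intro ι _ η hη
  obtain ⟨N0, hN0⟩ := exists_nat_gt (2 / η)
  obtain ⟨N, hN⟩ : ∃ N : ℕ, N = N0 + 2 := ⟨_, rfl⟩
  have hNZ : NeZero N := ⟨by omega⟩
  let W := ι → ZMod N
  let K := (ι × W) → ZMod N
  let T := W × K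
  let sg : (ι × W) → K := fun z => Pi.single z (1 : ZMod N)
  let dd : ι → W := fun i => Pi.single i (1 : ZMod N)
  let gg : ι → Equiv.Perm T := fun i => Equiv.prodShear (Equiv.addRight (dd i)) (fun e => Equiv.addRight (sg (i, e)))
  have hT1 : 1 ≤ Fintype.card T := Fintype.card_pos
  refine ⟨Fintype.card T, hT1, fun s hs1 => ?_⟩
  -- the bad set for one index
  have hbad : ∀ i : ι, (#{γ : T | ¬ (γ.1 i ≠ -1 ∧ γ.2 (i, γ.1) ≠ -1)} : ℝ) ≤ η * Fintype.card T := by
    intro i
    let A : Finset T := {γ : T | γ.1 i ∈ ({-1} : Finset (ZMod N))}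
    let B : Finset T := {γ : T | γ.2 (i, γ.1) ∈ ({-1} : Finset (ZMod N))}
    have hsub : ({γ : T | ¬ (γ.1 i ≠ -1 ∧ γ.2 (i, γ.1) ≠ -1)} : Finset T) ⊆ A ∪ B := by
      intro γ hγ
      have hγ2 := (mem_filter.1 hγ).2
      by_cases h2 : γ.2 (i, γ.1) = -1
      · exact mem_union_right _ (mem_filter.2 ⟨mem_univ _, mem_singleton.2 h2⟩)
      · by_cases h3 : γ.1 i = -1
        · exact mem_union_left _ (mem_filter.2 ⟨mem_univ _, mem_singleton.2 h3⟩)
        · exact absurd ⟨h3, h2⟩ hγ2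
    have hA : #A * N = Fintype.card T := by
      have h1 : A = ({e : W | e i ∈ ({-1} : Finset (ZMod N))} : Finset W) ×ˢ (univ : Finset K) := by
        ext γ
        constructor
        · intro h
          exact mem_product.2 ⟨mem_filter.2 ⟨mem_univ _, (mem_filter.1 h).2⟩, mem_univ _⟩
        · intro h
          exact mem_filter.2 ⟨mem_univ _, (mem_filter.1 (mem_product.1 h).1).2⟩
      have h2 := Pool.Agent.DP.IDX_cnt ι N i {-1}
      rw [card_singleton, one_mul] at h2
      rw [h1, card_product, card_univ]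
      calc #({e : W | e i ∈ ({-1} : Finset (ZMod N))} : Finset W) * Fintype.card K * N = #({e : W | e i ∈ ({-1} : Finset (ZMod N))} : Finset W) * N * Fintype.card K := by ring
        _ = Fintype.card W * Fintype.card K := by rw [h2]
        _ = Fintype.card T := (Fintype.card_prod W K).symm
    have hB : #B * N = Fintype.card T := by
      have h1 : #B = ∑ e : W, #{κ : K | κ (i, e) ∈ ({-1} : Finset (ZMod N))} := by
        rw [card_filter, Fintype.sum_prod_type]
        exact Finset.sum_congr rfl fun e _ => by rw [card_filter]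
      rw [h1, Finset.sum_mul]
      have h2 : ∀ e : W, #{κ : K | κ (i, e) ∈ ({-1} : Finset (ZMod N))} * N = Fintype.card K := by
        intro e
        have h3 := Pool.Agent.DP.IDX_cnt (ι × W) N (i, e) {-1}
        rw [card_singleton, one_mul] at h3
        exact h3
      rw [Finset.sum_congr rfl fun e _ => h2 e, Finset.sum_const, card_univ, smul_eq_mul]
      exact (Fintype.card_prod W K).symm
    have hall : #({γ : T | ¬ (γ.1 i ≠ -1 ∧ γ.2 (i, γ.1) ≠ -1)} : Finset T) * N ≤ 2 * Fintype.card T := by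
      calc _ ≤ #(A ∪ B) * N := Nat.mul_le_mul_right _ (card_le_card hsub)
        _ ≤ (#A + #B) * N := Nat.mul_le_mul_right _ (card_union_le _ _)
        _ = #A * N + #B * N := by ring
        _ = 2 * Fintype.card T := by rw [hA, hB]; ring
    have hNpos : (0 : ℝ) < N := by
      have : (0 : ℕ) < N := by omega
      exact_mod_cast this
    have hall' : (#({γ : T | ¬ (γ.1 i ≠ -1 ∧ γ.2 (i, γ.1) ≠ -1)} : Finset T) : ℝ) * N ≤ 2 * Fintype.card T := by
      exact_mod_cast hall
    have hNη : 2 ≤ η * N := by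
      rw [div_lt_iff₀ hη] at hN0
      have : (N : ℝ) = N0 + 2 := by rw [hN]; push_cast; ring
      rw [this]
      nlinarith
    have hT0 : (0 : ℝ) ≤ Fintype.card T := Nat.cast_nonneg _
    by_contra hcon
    rw [not_le] at hcon
    have h5 : η * Fintype.card T * N < 2 * Fintype.card T := lt_of_lt_of_le (mul_lt_mul_of_pos_right hcon hNpos) hall'
    have h6 : 2 * (Fintype.card T : ℝ) ≤ η * N * Fintype.card T := mul_le_mul_of_nonneg_right hNη hT0
    nlinarith
  have hval1 : ∀ x : ZMod N, x ≠ -1 → (x + 1).val = x.val + 1 := by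
    intro x hx
    have hx1 := ZMod.val_lt x
    have h1 : x.val + 1 < N := by
      by_contra hcon
      have h2 : x.val + 1 = N := by omega
      apply hx
      have h3 : ((x.val + 1 : ℕ) : ZMod N) = 0 := by rw [h2]; exact ZMod.natCast_self N
      rw [Nat.cast_add, ZMod.natCast_zmod_val, Nat.cast_one] at h3
      exact eq_neg_of_add_eq_zero_left h3
    have h4 : x + 1 = ((x.val + 1 : ℕ) : ZMod N) := by rw [Nat.cast_add, ZMod.natCast_zmod_val, Nat.cast_one]
    rw [h4, ZMod.val_natCast_of_lt h1]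
  let EQ := Fintype.equivFin T
  let ww : W → ℕ := fun e => ∏ i, s i ^ (e i).val
  have hww : ∀ e, 1 ≤ ww e := fun e => Finset.prod_pos fun i _ => Nat.pow_pos (hs1 i)
  have hmul : ∀ (i : ι) (e : W), e i ≠ -1 → ww (e + dd i) = s i * ww e := by
    intro i e he
    have h1 : ∀ j, s j ^ ((e + dd i) j).val = s j ^ (e j).val * if j = i then s i else 1 := by
      intro j
      by_cases h : j = i
      · have h2 : (e + dd i) j = e i + 1 := by
          rw [h]
          change e i + (Pi.single i (1 : ZMod N) : W) i = _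
          rw [Pi.single_eq_same]
        rw [h2, hval1 _ he, if_pos h, h]
        ring
      · have h2 : (e + dd i) j = e j := by
          change e j + (Pi.single i (1 : ZMod N) : W) j = _
          rw [Pi.single_eq_of_ne h, add_zero]
        rw [h2, if_neg h, mul_one]
    change ∏ j, s j ^ ((e + dd i) j).val = s i * ∏ j, s j ^ (e j).val
    rw [Finset.prod_congr rfl fun j _ => h1 j, Finset.prod_mul_distrib, Finset.prod_ite_eq' univ i fun _ => s i, if_pos (mem_univ _)]
    ring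
  obtain ⟨P, hP⟩ : ∃ P : ℕ, P = ∏ i : ι, ∏ e : W, s i * ww e := ⟨_, rfl⟩
  have hPd : ∀ (i : ι) (e : W), s i * ww e ∣ P := fun i e => by
    rw [hP]
    exact (Finset.dvd_prod_of_mem (fun e : W => s i * ww e) (mem_univ e)).trans (Finset.dvd_prod_of_mem (fun i : ι => ∏ e : W, s i * ww e) (mem_univ i))
  have hP1 : 1 ≤ P := by
    rw [hP]
    exact Nat.one_le_iff_ne_zero.2 (Finset.prod_ne_zero_iff.2 fun i _ => Finset.prod_ne_zero_iff.2 fun e _ =>
      mul_ne_zero (by have := hs1 i; omega) (by have := hww e; omega))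
  refine ⟨fun γ => ww (EQ.symm γ).1, fun i => (EQ.symm.trans (gg i)).trans EQ, P, hP1, fun γ => ⟨fun i => ((EQ.symm γ).1 i).val, rfl⟩, ?_⟩
  intro V Q hV
  have hu : ∀ sv : ι × W, ∃ u : ℤ, ((s sv.1 : ℕ) : ℤ) * ((ww sv.2 : ℕ) : ℤ) * u = V sv.1 ∧ Q ∣ u := by
    intro sv
    obtain ⟨t, ht⟩ := hV sv.1
    obtain ⟨m, hm⟩ := hPd sv.1 sv.2
    refine ⟨Q * (m * t), ?_, Dvd.intro _ rfl⟩
    rw [ht, hm]
    push_cast
    ring
  choose u hu1 hu2 using hu
  let oo : T → ℤ := fun γ => ((ww γ.1 : ℕ) : ℤ) * ∑ sv : ι × W, (((γ.2 sv).val : ℕ) : ℤ) * u sv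
  refine ⟨fun γ => oo (EQ.symm γ), fun γ => Dvd.dvd.mul_left (Finset.dvd_sum fun sv _ => (hu2 sv).mul_left _) _, ?_⟩
  intro i
  refine le_trans ?_ (hbad i)
  have hcard : (#{γ : Fin (Fintype.card T) | ¬ (ww (EQ.symm ((EQ.symm.trans (gg i)).trans EQ γ)).1 = s i * ww (EQ.symm γ).1 ∧
      oo (EQ.symm ((EQ.symm.trans (gg i)).trans EQ γ)) = s i * oo (EQ.symm γ) + V i)} : ℕ) ≤
    #{γ : T | ¬ (γ.1 i ≠ -1 ∧ γ.2 (i, γ.1) ≠ -1)} := by
    refine Finset.card_le_card_of_injOn (fun γ => EQ.symm γ) ?_ EQ.symm.injective.injOn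
    intro γ hγ
    rw [mem_coe, mem_filter] at hγ ⊢
    refine ⟨mem_univ _, fun hgood => hγ.2 ?_⟩
    obtain ⟨hg1, hg2⟩ := hgood
    obtain ⟨z, hx⟩ : ∃ z : T, z = EQ.symm γ := ⟨_, rfl⟩
    dsimp only at hg1 hg2
    rw [← hx] at hg1 hg2 ⊢
    have e0 : (EQ.symm.trans (gg i)).trans EQ γ = EQ (gg i z) := by
      rw [Equiv.trans_apply, Equiv.trans_apply, ← hx]
    have e1 : gg i z = (z.1 + dd i, z.2 + sg (i, z.1)) := rfl
    rw [e0, Equiv.symm_apply_apply, e1]
    have hw : ww (z.1 + dd i) = s i * ww z.1 := hmul i _ hg1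
    refine ⟨hw, ?_⟩
    have hs : ∀ sv : ι × W, ((((z.2 + sg (i, z.1) : K) sv).val : ℕ) : ℤ) = (((z.2 sv).val : ℕ) : ℤ) + if sv = (i, z.1) then 1 else 0 := by
      intro sv
      by_cases h : sv = (i, z.1)
      · rw [if_pos h, h]
        have h5 : (z.2 + sg (i, z.1) : K) (i, z.1) = z.2 (i, z.1) + 1 := by
          change z.2 (i, z.1) + (Pi.single (i, z.1) (1 : ZMod N) : K) (i, z.1) = _
          rw [Pi.single_eq_same]
        rw [h5, hval1 _ hg2]
        push_cast
        ring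
      · have h5 : (z.2 + sg (i, z.1) : K) sv = z.2 sv := by
          change z.2 sv + (Pi.single (i, z.1) (1 : ZMod N) : K) sv = _
          rw [Pi.single_eq_of_ne h, add_zero]
        rw [if_neg h, h5, add_zero]
    change (((ww (z.1 + dd i) : ℕ) : ℤ) * ∑ sv : ι × W, ((((z.2 + sg (i, z.1) : K) sv).val : ℕ) : ℤ) * u sv) =
      (s i : ℤ) * (((ww z.1 : ℕ) : ℤ) * ∑ sv : ι × W, (((z.2 sv).val : ℕ) : ℤ) * u sv) + V i
    have hsum : ∑ sv : ι × W, ((((z.2 + sg (i, z.1) : K) sv).val : ℕ) : ℤ) * u sv =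
        (∑ sv : ι × W, (((z.2 sv).val : ℕ) : ℤ) * u sv) + u (i, z.1) := by
      have h1 : ∀ sv : ι × W, ((((z.2 + sg (i, z.1) : K) sv).val : ℕ) : ℤ) * u sv = (((z.2 sv).val : ℕ) : ℤ) * u sv + if sv = (i, z.1) then u sv else 0 := by
        intro sv
        rw [hs sv]
        by_cases h : sv = (i, z.1)
        · rw [if_pos h, if_pos h]
          ring
        · rw [if_neg h, if_neg h]
          ring
      rw [Finset.sum_congr rfl fun sv _ => h1 sv, Finset.sum_add_distrib, Finset.sum_ite_eq' univ (i, z.1) u, if_pos (mem_univ _)]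
    rw [hsum]
    have hwz : ((ww (z.1 + dd i) : ℕ) : ℤ) = (s i : ℤ) * ((ww z.1 : ℕ) : ℤ) := by exact_mod_cast hw
    have hur : ((s i : ℕ) : ℤ) * ((ww z.1 : ℕ) : ℤ) * u (i, z.1) = V i := hu1 (i, z.1)
    rw [← hur, hwz]
    ring
  exact_mod_cast hcard

end Pool.Agent.FG
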